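import Pool.Agent.Helper95.PW.Stmts

/-!
# Row BID: the double commutator of the form with the momentum operator of a shell field
-/

set_option autoImplicit false

namespace Pool.Agent.Helper95.PW

open MeasureTheory Filter

theorem bid_dv {n : ℕ} (k : Fin n) (i : Fin 3) {v : Cf n → ℝ} (hv : ContDiff ℝ (⊤ : ℕ∞) v) :
    ContDiff ℝ (⊤ : ℕ∞) (dv k i v) := by
  unfold dv
  exact (hv.fderiv_right (m := ((⊤ : ℕ∞) : WithTop ℕ∞)) (by simp)).clm_apply contDiff_const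

theorem bid_nr (y : R3) : 0 ≤ nr y := Real.sqrt_nonneg _

theorem bid_rep {n : ℕ} (x : Cf n) : 0 ≤ rep x := by
  unfold rep
  refine Finset.sum_nonneg fun k _ => Finset.sum_nonneg fun l _ => ?_
  split_ifs
  · exact div_nonneg zero_le_one (bid_nr _)
  · exact le_rfl

theorem bid_sq {n : ℕ} (u : Wf n) : 0 ≤ sq u :=
  Finset.sum_nonneg fun s _ => integral_nonneg fun x => sq_nonneg _

theorem bid_kin {n : ℕ} (u : Wf n) : 0 ≤ kin u :=
  Finset.sum_nonneg fun k _ => Finset.sum_nonneg fun i _ => bid_sq _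

theorem bid_pair {n : ℕ} (u : Wf n) : 0 ≤ pair u :=
  Finset.sum_nonneg fun s _ => integral_nonneg fun x => mul_nonneg (bid_rep x) (sq_nonneg _)

theorem bid_one {n : ℕ} (w : R3 → ℝ) (hw : ∀ y, 0 ≤ w y) (u : Wf n) : 0 ≤ one w u :=
  Finset.sum_nonneg fun s _ => integral_nonneg fun x =>
    mul_nonneg (Finset.sum_nonneg fun k _ => hw _) (sq_nonneg _)

theorem bid_ball (R : ℝ) (y : R3) : 0 ≤ ball R y := by
  unfold ball
  exact Set.indicator_nonneg (fun _ _ => zero_le_one) _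

/-- the square of the norm of `P u` -/
theorem bid_norm (h2 : ST_PAN) (h3 : ST_STB) {n : ℕ} {g : R3 → ℝ} (hg : ContDiff ℝ (⊤ : ℕ∞) g)
    {u : Wf n} (hu : Sm u) :
    sq (fun s => Pg g (u s)) = -∑ s, ∫ x, Pg g (Pg g (u s)) x * u s x := by
  have hPu : Sm (fun s => Pg g (u s)) := (h3 n g u hg hu).2.1
  unfold sq
  rw [← Finset.sum_neg_distrib]
  refine Finset.sum_congr rfl fun s _ => ?_
  have e := h2 n g (u s) (Pg g (u s)) hg (hu s).1 (hu s).2 (hPu s).1
  have e1 : ∫ x, Pg g (u s) x ^ 2 = ∫ x, Pg g (u s) x * Pg g (u s) x := by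
    refine integral_congr_ae (Eventually.of_forall fun x => ?_)
    simp only []
    ring
  have e2 : ∫ x, u s x * Pg g (Pg g (u s)) x = ∫ x, Pg g (Pg g (u s)) x * u s x := by
    refine integral_congr_ae (Eventually.of_forall fun x => ?_)
    simp only []
    ring
  rw [e1, e, e2]

/-- the terms of `∫ w (H - E) u` -/
theorem bid_split (h7 : ST_INT) {n : ℕ} (Z E : ℝ) {w u : Cf n → ℝ}
    (hw : ContDiff ℝ (⊤ : ℕ∞) w) (hw' : HasCompactSupport w)
    (hu : ContDiff ℝ (⊤ : ℕ∞) u) (hu' : HasCompactSupport u) :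
    ∫ x, w x * (hm Z u x - E * u x) =
      -(∫ x, w x * ∑ k, ∑ i, dv k i (dv k i u) x) + (∫ x, rep x * (w x * u x)) -
      Z * (∫ x, att x * (w x * u x)) - E * (∫ x, w x * u x) := by
  have i1 : Integrable (fun x => w x * ∑ k, ∑ i, dv k i (dv k i u) x) := by
    apply Continuous.integrable_of_hasCompactSupport
    · refine hw.continuous.mul ?_
      refine continuous_finset_sum _ fun k _ => continuous_finset_sum _ fun i _ => ?_
      exact (bid_dv k i (bid_dv k i hu)).continuous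
    · exact hw'.mul_right
  have i2 := (h7 n _ _ hw hw' hu hu').2.1
  have i3 := (h7 n _ _ hw hw' hu hu').1
  have i4 : Integrable (fun x => w x * u x) :=
    (hw.continuous.mul hu.continuous).integrable_of_hasCompactSupport hw'.mul_right
  have e : ∀ x, w x * (hm Z u x - E * u x) =
      ((-(w x * ∑ k, ∑ i, dv k i (dv k i u) x) + rep x * (w x * u x)) -
        Z * (att x * (w x * u x))) - E * (w x * u x) := by
    intro x
    simp only [hm]
    ring
  simp only [e]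
  have j1 : Integrable (fun x => -(w x * ∑ k, ∑ i, dv k i (dv k i u) x)) := i1.neg
  have j2 : Integrable (fun x => -(w x * ∑ k, ∑ i, dv k i (dv k i u) x) +
      rep x * (w x * u x)) := j1.add i2
  have j3 : Integrable (fun x => Z * (att x * (w x * u x))) := i3.const_mul Z
  have j4 : Integrable (fun x => (-(w x * ∑ k, ∑ i, dv k i (dv k i u) x) +
      rep x * (w x * u x)) - Z * (att x * (w x * u x))) := j2.sub j3
  have j5 : Integrable (fun x => E * (w x * u x)) := i4.const_mul E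
  rw [integral_sub j4 j5, integral_sub j2 j3, integral_add j1 i2, integral_neg,
    integral_const_mul, integral_const_mul]

theorem st_BID (h1 : ST_QH) (h2 : ST_PAN) (h3 : ST_STB) (h4 : ST_KIN) (h5 : ST_POE)
    (h6 : ST_PON) (h7 : ST_INT) : ST_BID := by
  obtain ⟨C1, hC1, hK⟩ := h4
  obtain ⟨C2, hC2, hP⟩ := h5
  obtain ⟨C3, hC3, hO⟩ := h6
  refine ⟨C1 + C2 + C3, by positivity, ?_⟩
  intro n Z E g K r R u hZ hg hr hgr hgR hu
  have hPu : Sm (fun s => Pg g (u s)) := (h3 n g u hg.sm hu).2.1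
  have hPPu : Sm (fun s => Pg g (Pg g (u s))) := (h3 n g _ hg.sm hPu).2.1
  have a1 := hK n g K r R u hg hr hgR hu
  have a2 := hP n g K r u hg hr hu
  have a3 := mul_le_mul_of_nonneg_left (hO n g K r u hg hr hgr hu) hZ
  have a4 := bid_norm h2 h3 hg.sm hu
  have a6 : ∑ s, ∫ x, Pg g (Pg g (u s)) x * (hm Z (u s) x - E * u s x) =
      -(∑ s, ∫ x, Pg g (Pg g (u s)) x * ∑ k, ∑ i, dv k i (dv k i (u s)) x) +
      (∑ s, ∫ x, rep x * (Pg g (Pg g (u s)) x * u s x)) -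
      Z * (∑ s, ∫ x, att x * (Pg g (Pg g (u s)) x * u s x)) -
      E * (∑ s, ∫ x, Pg g (Pg g (u s)) x * u s x) := by
    rw [Finset.sum_congr rfl fun s _ =>
      bid_split h7 Z E (hPPu s).1 (hPPu s).2 (hu s).1 (hu s).2, Finset.sum_sub_distrib,
      Finset.sum_sub_distrib, Finset.sum_add_distrib, Finset.sum_neg_distrib,
      ← Finset.mul_sum, ← Finset.mul_sum]
  rw [a6]
  unfold Q
  rw [a4]
  have b1 : 0 ≤ K ^ 2 * (kin u / r ^ 2) :=
    mul_nonneg (sq_nonneg _) (div_nonneg (bid_kin u) (by positivity))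
  have b2 : 0 ≤ K ^ 2 * (pair u / r ^ 2) :=
    mul_nonneg (sq_nonneg _) (div_nonneg (bid_pair u) (by positivity))
  have b3 : 0 ≤ K ^ 2 * (Z * one (fun y => 1 / nr y) u / r ^ 2) :=
    mul_nonneg (sq_nonneg _) (div_nonneg (mul_nonneg hZ
      (bid_one _ (fun y => div_nonneg zero_le_one (bid_nr y)) u)) (by positivity))
  have b4 : 0 ≤ K ^ 2 * (one (ball R) u / r ^ 4) :=
    mul_nonneg (sq_nonneg _) (div_nonneg (bid_one _ (bid_ball R) u) (by positivity))
  generalize (∑ s, ∫ x, Pg g (Pg g (u s)) x * ∑ k, ∑ i, dv k i (dv k i (u s)) x) = L at *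
  generalize (∑ s, ∫ x, rep x * (Pg g (Pg g (u s)) x * u s x)) = Rp at *
  generalize (∑ s, ∫ x, att x * (Pg g (Pg g (u s)) x * u s x)) = At at *
  generalize (∑ s, ∫ x, Pg g (Pg g (u s)) x * u s x) = I4 at *
  generalize kin (fun s => Pg g (u s)) = X1 at *
  generalize pair (fun s => Pg g (u s)) = X2 at *
  generalize one (fun y => 1 / nr y) (fun s => Pg g (u s)) = X3 at *
  generalize one (fun y => 1 / nr y) u = O1 at *
  generalize one (ball R) u = B1 at *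
  generalize kin u = K1 at *
  generalize pair u = P1 at *
  have c1 : 0 ≤ C1 * (K ^ 2 * (P1 / r ^ 2)) := mul_nonneg hC1.le b2
  have c2 : 0 ≤ C1 * (K ^ 2 * (Z * O1 / r ^ 2)) := mul_nonneg hC1.le b3
  have c3 : 0 ≤ C2 * (K ^ 2 * (K1 / r ^ 2)) := mul_nonneg hC2.le b1
  have c4 : 0 ≤ C2 * (K ^ 2 * (Z * O1 / r ^ 2)) := mul_nonneg hC2.le b3
  have c5 : 0 ≤ C2 * (K ^ 2 * (B1 / r ^ 4)) := mul_nonneg hC2.le b4
  have c6 : 0 ≤ C3 * (K ^ 2 * (K1 / r ^ 2)) := mul_nonneg hC3.le b1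
  have c7 : 0 ≤ C3 * (K ^ 2 * (P1 / r ^ 2)) := mul_nonneg hC3.le b2
  have c8 : 0 ≤ C3 * (K ^ 2 * (B1 / r ^ 4)) := mul_nonneg hC3.le b4
  have e1 : (C1 + C2 + C3) * K ^ 2 * ((K1 + P1 + Z * O1) / r ^ 2 + B1 / r ^ 4) =
      C1 * K ^ 2 * (K1 / r ^ 2 + B1 / r ^ 4) + C2 * K ^ 2 / r ^ 2 * P1 +
      Z * (C3 * K ^ 2 / r ^ 2 * O1) +
      (C1 * (K ^ 2 * (P1 / r ^ 2)) + C1 * (K ^ 2 * (Z * O1 / r ^ 2)) +
      C2 * (K ^ 2 * (K1 / r ^ 2)) + C2 * (K ^ 2 * (Z * O1 / r ^ 2)) +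
      C2 * (K ^ 2 * (B1 / r ^ 4)) + C3 * (K ^ 2 * (K1 / r ^ 2)) +
      C3 * (K ^ 2 * (P1 / r ^ 2)) + C3 * (K ^ 2 * (B1 / r ^ 4))) := by
    ring
  rw [e1]
  nlinarith [a1, a2, a3, c1, c2, c3, c4, c5, c6, c7, c8]

end Pool.Agent.Helper95.PW
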