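import Pool.Agent.Helper2.PW.STB

/-!
# Row PAN: the momentum operator of a gradient field is antisymmetric
-/

set_option autoImplicit false

namespace Pool.Agent.Helper20.PW

open MeasureTheory Filter
open Pool.Agent.Helper95.PW

theorem pan_dv_ev {n : ℕ} (k : Fin n) (i : Fin 3) {f : R3 → ℝ} (hf : Differentiable ℝ f)
    (x : Cf n) : dv k i (fun y : Cf n => f (y k)) x = pd i f (x k) := by
  have h : HasFDerivAt (fun y : Cf n => f (y k))
      ((fderiv ℝ f (x k)).comp (ContinuousLinearMap.proj (R := ℝ) (φ := fun _ : Fin n => R3) k)) x :=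
    HasFDerivAt.comp x (hf (x k)).hasFDerivAt
      (ContinuousLinearMap.proj (R := ℝ) (φ := fun _ : Fin n => R3) k).hasFDerivAt
  unfold dv pd
  rw [h.fderiv]
  simp

theorem pan_dv_mul {n : ℕ} (k : Fin n) (i : Fin 3) {a w : Cf n → ℝ} (ha : Differentiable ℝ a)
    (hw : Differentiable ℝ w) (x : Cf n) :
    dv k i (fun y => a y * w y) x = a x * dv k i w x + dv k i a x * w x := by
  unfold dv
  have h := ((ha x).hasFDerivAt.mul (hw x).hasFDerivAt).fderiv
  have e : (fun y => a y * w y) = a * w := rfl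
  rw [e, h]
  simp
  ring

theorem pan_one (h1 : ST_IBP) {n : ℕ} (k : Fin n) (i : Fin 3) {g : R3 → ℝ} {v w : Cf n → ℝ}
    (hg : ContDiff ℝ (⊤ : ℕ∞) g) (hv : ContDiff ℝ (⊤ : ℕ∞) v) (hc : HasCompactSupport v)
    (hw : ContDiff ℝ (⊤ : ℕ∞) w) :
    ∫ x, (pd i g (x k) * dv k i v x + pd i (pd i g) (x k) / 2 * v x) * w x =
      -∫ x, v x * (pd i g (x k) * dv k i w x + pd i (pd i g) (x k) / 2 * w x) := by
  have hG := Pool.Agent.Helper2.PW.stb_ev k (Pool.Agent.Helper2.PW.stb_pd i hg)
  have hG2 := Pool.Agent.Helper2.PW.stb_ev k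
    (Pool.Agent.Helper2.PW.stb_pd i (Pool.Agent.Helper2.PW.stb_pd i hg))
  have hdv := Pool.Agent.Helper2.PW.stb_dv k i hv
  have hdw := Pool.Agent.Helper2.PW.stb_dv k i hw
  have hdiff : Differentiable ℝ (pd i g) :=
    (Pool.Agent.Helper2.PW.stb_pd i hg).differentiable (by simp)
  have hP := h1 n k i v (fun x => pd i g (x k) * w x) hv hc (hG.mul hw)
  have e1 : ∀ x : Cf n, dv k i (fun x => pd i g (x k) * w x) x =
      pd i g (x k) * dv k i w x + pd i (pd i g) (x k) * w x := by
    intro x
    rw [pan_dv_mul k i (hG.differentiable (by simp)) (hw.differentiable (by simp)) x,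
      pan_dv_ev k i hdiff x]
  simp only [e1] at hP
  have i1 : Integrable (fun x : Cf n => dv k i v x * (pd i g (x k) * w x)) :=
    (hdv.continuous.mul (hG.continuous.mul hw.continuous)).integrable_of_hasCompactSupport
      (Pool.Agent.Helper2.PW.stb_cs_dv k i hc).mul_right
  have i2 : Integrable (fun x : Cf n => v x * (pd i (pd i g) (x k) * w x)) :=
    (hv.continuous.mul (hG2.continuous.mul hw.continuous)).integrable_of_hasCompactSupport
      hc.mul_right
  have i3 : Integrable (fun x : Cf n => v x * (pd i g (x k) * dv k i w x)) :=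
    (hv.continuous.mul (hG.continuous.mul hdw.continuous)).integrable_of_hasCompactSupport
      hc.mul_right
  have a1 : ∫ x : Cf n, (pd i g (x k) * dv k i v x + pd i (pd i g) (x k) / 2 * v x) * w x =
      (∫ x : Cf n, dv k i v x * (pd i g (x k) * w x)) +
        1 / 2 * ∫ x : Cf n, v x * (pd i (pd i g) (x k) * w x) := by
    rw [← integral_const_mul, ← integral_add i1 (i2.const_mul _)]
    refine integral_congr_ae (Eventually.of_forall fun x => ?_)
    simp only []
    ring
  have a2 : ∫ x : Cf n, v x * (pd i g (x k) * dv k i w x + pd i (pd i g) (x k) / 2 * w x) =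
      (∫ x : Cf n, v x * (pd i g (x k) * dv k i w x)) +
        1 / 2 * ∫ x : Cf n, v x * (pd i (pd i g) (x k) * w x) := by
    rw [← integral_const_mul, ← integral_add i3 (i2.const_mul _)]
    refine integral_congr_ae (Eventually.of_forall fun x => ?_)
    simp only []
    ring
  have a3 : ∫ x : Cf n, v x * (pd i g (x k) * dv k i w x + pd i (pd i g) (x k) * w x) =
      (∫ x : Cf n, v x * (pd i g (x k) * dv k i w x)) +
        ∫ x : Cf n, v x * (pd i (pd i g) (x k) * w x) := by
    rw [← integral_add i3 i2]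
    refine integral_congr_ae (Eventually.of_forall fun x => ?_)
    simp only []
    ring
  rw [a3] at hP
  rw [a1, a2, hP]
  ring

theorem pan_int {n : ℕ} (k : Fin n) (i : Fin 3) {g : R3 → ℝ} {v w : Cf n → ℝ}
    (hg : ContDiff ℝ (⊤ : ℕ∞) g) (hv : ContDiff ℝ (⊤ : ℕ∞) v) (hc : HasCompactSupport v)
    (hw : ContDiff ℝ (⊤ : ℕ∞) w) :
    Integrable (fun x : Cf n =>
      (pd i g (x k) * dv k i v x + pd i (pd i g) (x k) / 2 * v x) * w x) ∧
    Integrable (fun x : Cf n =>
      v x * (pd i g (x k) * dv k i w x + pd i (pd i g) (x k) / 2 * w x)) := by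
  have hG := Pool.Agent.Helper2.PW.stb_ev k (Pool.Agent.Helper2.PW.stb_pd i hg)
  have hG2 := Pool.Agent.Helper2.PW.stb_ev k
    (Pool.Agent.Helper2.PW.stb_pd i (Pool.Agent.Helper2.PW.stb_pd i hg))
  have hdv := Pool.Agent.Helper2.PW.stb_dv k i hv
  have hdw := Pool.Agent.Helper2.PW.stb_dv k i hw
  constructor
  · refine Continuous.integrable_of_hasCompactSupport ?_ ?_
    · exact ((hG.continuous.mul hdv.continuous).add
        ((hG2.continuous.div_const 2).mul hv.continuous)).mul hw.continuous
    · exact ((Pool.Agent.Helper2.PW.stb_cs_dv k i hc).mul_left.add hc.mul_left).mul_right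
  · refine Continuous.integrable_of_hasCompactSupport ?_ ?_
    · exact hv.continuous.mul ((hG.continuous.mul hdw.continuous).add
        ((hG2.continuous.div_const 2).mul hw.continuous))
    · exact hc.mul_right

theorem pan_Pg {n : ℕ} (g : R3 → ℝ) (v : Cf n → ℝ) (x : Cf n) :
    Pg g v x = ∑ k, ∑ i, (pd i g (x k) * dv k i v x + pd i (pd i g) (x k) / 2 * v x) := by
  unfold Pg lap
  refine Finset.sum_congr rfl fun k _ => ?_
  rw [Finset.sum_add_distrib, Finset.sum_div, Finset.sum_mul]

theorem st_PAN (h1 : ST_IBP) : ST_PAN := by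
  intro n g v w hg hv hc hw
  have e1 : ∀ x : Cf n, Pg g v x * w x =
      ∑ k, ∑ i, (pd i g (x k) * dv k i v x + pd i (pd i g) (x k) / 2 * v x) * w x := by
    intro x
    rw [pan_Pg, Finset.sum_mul]
    exact Finset.sum_congr rfl fun k _ => Finset.sum_mul _ _ _
  have e2 : ∀ x : Cf n, v x * Pg g w x =
      ∑ k, ∑ i, v x * (pd i g (x k) * dv k i w x + pd i (pd i g) (x k) / 2 * w x) := by
    intro x
    rw [pan_Pg, Finset.mul_sum]
    exact Finset.sum_congr rfl fun k _ => Finset.mul_sum _ _ _
  simp only [e1, e2]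
  rw [integral_finset_sum _ fun k _ => integrable_finset_sum _ fun i _ =>
      (pan_int k i hg hv hc hw).1,
    integral_finset_sum _ fun k _ => integrable_finset_sum _ fun i _ =>
      (pan_int k i hg hv hc hw).2, ← Finset.sum_neg_distrib]
  refine Finset.sum_congr rfl fun k _ => ?_
  rw [integral_finset_sum _ fun i _ => (pan_int k i hg hv hc hw).1,
    integral_finset_sum _ fun i _ => (pan_int k i hg hv hc hw).2, ← Finset.sum_neg_distrib]
  exact Finset.sum_congr rfl fun i _ => pan_one h1 k i hg hv hc hw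

end Pool.Agent.Helper20.PW
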